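import Pool.Agent.Helper23.AC.PairGood

/-! AC-12b: `grp_low` for MP_981e7e_an. -/

set_option autoImplicit false
namespace Pool.Agent.Helper23.AC
open Finset

/-- a child acting on a pair -/
theorem child_bound65 {π : ℕ} {g : Fn} (hg : (∃ n, g = Finsupp.single n 1) ∨ Good π g)
    (hs : ∀ n ∈ g.support, π ≤ n) :
    ∃ q : Fn, UB 1 q ∧ (∀ u ∈ q.support, π ≤ u) ∧
      ∀ (L l r : ℕ) (y : Fn) (w : ℕ → ℝ), IsPair L l r y w → L < l → l ≤ r →
        (∃ n ∈ g.support, l ≤ n ∧ n ≤ r) →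
        ∃ ω : Fn, (∀ u, 0 ≤ ω u) ∧ (∀ u ∈ ω.support, L < u ∧ u ≤ r) ∧ tau ω ≤ 1 ∧
          |pr g w| ≤ 23 * (1 / 4 : ℝ) ^ π + 8 * prA ω q := by
  classical
  rcases hg with ⟨n, rfl⟩ | hG
  · have hsupp : ∀ m ∈ (Finsupp.single n (1 : ℝ)).support, m = n := by
      intro m hm
      exact Finset.mem_singleton.mp (Finsupp.support_single_subset hm)
    have hmem : n ∈ (Finsupp.single n (1 : ℝ)).support := by
      rw [Finsupp.mem_support_iff]; simp
    refine ⟨Finsupp.single n 1, ub_single n (by simp), fun u hu => ?_, ?_⟩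
    · rw [hsupp u hu]; exact hs n hmem
    intro L l r y w hw hL hlr ⟨m, hm, hm1, hm2⟩
    rw [hsupp m hm] at hm1 hm2
    refine ⟨Finsupp.single n (|w n| / 8), ?_, ?_, ?_, ?_⟩
    · intro u
      rw [Finsupp.single_apply]
      split
      · positivity
      · exact le_rfl
    · intro u hu
      have : u = n := Finset.mem_singleton.mp (Finsupp.support_single_subset hu)
      rw [this]
      exact ⟨by omega, hm2⟩
    · rw [tau_single, abs_of_nonneg (by positivity)]
      linarith [hw.abs_le n]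
    · rw [pr_single, one_mul, prA_single_left, Finsupp.single_eq_same, abs_one, mul_one,
        abs_of_nonneg (by positivity : 0 ≤ |w n| / 8)]
      have : (0 : ℝ) ≤ (1 / 4 : ℝ) ^ π := by positivity
      linarith
  · obtain ⟨p, F, hp, hF, rfl⟩ := (good_iff π g).mp hG
    refine ⟨p, hp, fun u hu => (hF u hu).1, ?_⟩
    intro L l r y w hw hL hlr _
    set S := p.support.filter (fun v => L < v ∧ v ≤ r) with hS
    have hnn : ∀ v ∈ S, ∀ n, 0 ≤ (Finsupp.single v |pr (F v) w| : Fn) n := by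
      intro v _ n
      rw [Finsupp.single_apply]
      split
      · exact abs_nonneg _
      · exact le_rfl
    refine ⟨∑ v ∈ S, Finsupp.single v |pr (F v) w|, ?_, ?_, ?_, ?_⟩
    · intro u
      rw [Finsupp.finsetSum_apply]
      exact Finset.sum_nonneg fun v hv => hnn v hv u
    · intro u hu
      have := Finsupp.support_finset_sum (f := fun v' => (Finsupp.single v' |pr (F v') w| : Fn))
        (s := S) hu
      rw [Finset.mem_biUnion] at this
      obtain ⟨v', hv', hn'⟩ := this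
      have := Finsupp.support_single_subset hn'
      rw [Finset.mem_singleton] at this
      subst this
      exact (Finset.mem_filter.mp hv').2
    · exact tau_omega hw S F fun v hv => (hF v (Finset.mem_filter.mp hv).1).2
    · refine (pair_good (t := π) hw hlr hL hp hF).trans ?_
      rw [prA_sum_left_of_nonneg S _ _ hnn]
      have h1 : ∑ v ∈ S, |p v| * |pr (F v) w| =
          ∑ v ∈ S, prA (Finsupp.single v |pr (F v) w|) p := by
        refine Finset.sum_congr rfl fun v _ => ?_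
        rw [prA_single_left, abs_abs, mul_comm]
      rw [h1]
      have h2 : 0 ≤ ∑ v ∈ S, prA (Finsupp.single v |pr (F v) w|) p :=
        Finset.sum_nonneg fun v _ => prA_nonneg _ _
      linarith

theorem patF_eq_sum65 {c : Fn} {g : ℕ → Fn} {S : Finset ℕ} (h : c.support ⊆ S) :
    patF c g = ∑ π ∈ S, c π • g π := by
  unfold patF
  refine Finset.sum_subset h fun π _ hπ => ?_
  rw [Finsupp.notMem_support_iff.mp hπ, zero_smul]

theorem pr_eq_zero_of65 {f : Fn} {w : ℕ → ℝ} {l r : ℕ} (hw : ∀ n, w n ≠ 0 → l ≤ n ∧ n ≤ r)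
    (h : ¬ ∃ n ∈ f.support, l ≤ n ∧ n ≤ r) : pr f w = 0 := by
  unfold pr
  refine Finset.sum_eq_zero fun n hn => ?_
  have : w n = 0 := by
    by_contra h'
    exact h ⟨n, hn, hw n h'⟩
  rw [this, mul_zero]

theorem grp_low {v v' Lst : ℕ} (hv : v' < v) (hv' : 1 ≤ v') (hLst : 2 * v ≤ Lst)
    {F : Finset ℕ} {b : ℕ → ℝ} {y : ℕ → Fn} {w : ℕ → ℕ → ℝ} {l r L : ℕ → ℕ}
    (hb : ∀ s ∈ F, 0 < b s) (hb1 : ∑ s ∈ F, b s = 1)
    (hp : ∀ s ∈ F, IsPair (L s) (l s) (r s) (y s) (w s))
    (hL : ∀ s ∈ F, Lst ≤ L s ∧ L s < l s ∧ l s ≤ r s)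
    (hsep : ∀ s ∈ F, ∀ s' ∈ F, s < s' → r s < L s')
    (hω : ∀ ω : ℕ → Fn, (∀ s ∈ F, (∀ n ∈ (ω s).support, L s < n ∧ n ≤ r s) ∧ tau (ω s) ≤ 1) →
      tau (∑ s ∈ F, b s • ω s) ≤ 1 / (2 ^ (12 * v + 5) * bb (v - 1)))
    {c : Fn} {g : ℕ → Fn} (hP : Pat v' c g) (π₀ : ℕ)
    (hπ₀ : ∀ π ∈ c.support, π ≠ π₀ →
      (∃ s ∈ F, ∃ n ∈ (g π).support, l s ≤ n ∧ n ≤ r s) → Lst < π) :
    ∃ S ⊆ F, |8 ^ v * ∑ s ∈ F, b s * pr (patF c g) (w s) -
      c π₀ * (8 ^ v * ∑ s ∈ S, b s * pr (g π₀) (w s))| ≤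
        12 * (1 / 8 : ℝ) ^ v + 23 * 8 ^ v * (1 / 4 : ℝ) ^ Lst := by
  classical
  set θ : ℝ := (1 / 8 : ℝ) ^ (2 * v) with hθ
  have hθpos : 0 < θ := by positivity
  set δ₀ : ℝ := 1 / (2 ^ (12 * v + 5) * bb (v - 1)) with hδ₀
  have hδ₀pos : 0 < δ₀ := by
    have := bb_pos (v - 1)
    positivity
  have hbv : 0 < bb v' := bb_pos v'
  -- windows are disjoint
  have hwin : ∀ s ∈ F, ∀ s' ∈ F, ∀ u, L s < u → u ≤ r s → L s' < u → u ≤ r s' → s = s' := by
    intro s hs s' hs' u h1 h2 h3 h4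
    rcases lt_trichotomy s s' with h | h | h
    · have := hsep s hs s' hs' h; omega
    · exact h
    · have := hsep s' hs' s hs h; omega
  -- splitting the coefficients
  set c₁ : Fn := c.filter (fun π => |c π| < θ) with hc₁
  set c₂ : Fn := c.filter (fun π => ¬ |c π| < θ) with hc₂
  have hc₁v : ∀ π, c₁ π = if |c π| < θ then c π else 0 := fun π => by
    rw [hc₁, Finsupp.filter_apply]
  have hc₂v : ∀ π, c₂ π = if ¬ |c π| < θ then c π else 0 := fun π => by
    rw [hc₂, Finsupp.filter_apply]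
  have hs₁ : c₁.support ⊆ c.support := by
    rw [hc₁, Finsupp.support_filter]; exact Finset.filter_subset _ _
  have hs₂ : c₂.support ⊆ c.support := by
    rw [hc₂, Finsupp.support_filter]; exact Finset.filter_subset _ _
  have hle₁ : ∀ π, |c₁ π| ≤ |c π| := by
    intro π; rw [hc₁v]; split
    · exact le_rfl
    · rw [abs_zero]; exact abs_nonneg _
  have hle₂ : ∀ π, |c₂ π| ≤ |c π| := by
    intro π; rw [hc₂v]; split
    · exact le_rfl
    · rw [abs_zero]; exact abs_nonneg _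
  have hT₁ : Typ (2 * v) (patF c₁ g) := by
    refine ⟨c₁, g, pat_of_le hP hs₁ ?_ ?_, rfl⟩
    · intro π
      rw [hc₁v]
      split
      · rename_i h; exact h.le
      · rw [abs_zero]; positivity
    · exact ub_weaken (bb_mono (by omega)) (ub_mono hle₁ hP.c2)
  have hT₂ : Typ v' (patF c₂ g) :=
    ⟨c₂, g, pat_of_le hP hs₂ (fun π => (hle₂ π).trans (hP.c1 π)) (ub_mono hle₂ hP.c2), rfl⟩
  have hsplit : patF c g = patF c₁ g + patF c₂ g := by
    rw [patF_eq_sum65 (Finset.Subset.refl c.support), patF_eq_sum65 hs₁, patF_eq_sum65 hs₂,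
      ← Finset.sum_add_distrib]
    refine Finset.sum_congr rfl fun π _ => ?_
    rw [hc₁v, hc₂v, ← add_smul]
    congr 1
    by_cases h : |c π| < θ
    · rw [if_pos h, if_neg (not_not.mpr h), add_zero]
    · rw [if_neg h, if_pos h, zero_add]
  -- positions of the large part whose child meets the interval of `s`
  set PP : ℕ → Finset ℕ := fun s =>
    c₂.support.filter (fun π => ∃ n ∈ (g π).support, l s ≤ n ∧ n ≤ r s) with hPP
  have hPPc : ∀ s, ∀ π ∈ PP s, π ∈ c.support := fun s π hπ => hs₂ (Finset.mem_filter.mp hπ).1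
  have hPPθ : ∀ s, ∀ π ∈ PP s, θ ≤ |c π| := by
    intro s π hπ
    have h1 := Finsupp.mem_support_iff.mp (Finset.mem_filter.mp hπ).1
    rw [hc₂v] at h1
    by_contra h
    rw [if_neg (not_not.mpr (not_le.mp h))] at h1
    exact h1 rfl
  have hPP2 : ∀ s, ∀ π ∈ PP s, c₂ π = c π := by
    intro s π hπ
    rw [hc₂v, if_pos (not_lt.mpr (hPPθ s π hπ))]
  have hE : ∀ s ∈ F, pr (patF c₂ g) (w s) = ∑ π ∈ PP s, c π * pr (g π) (w s) := by
    intro s hs
    rw [patF_eq_sum65 (Finset.Subset.refl c₂.support), pr_sum]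
    have hsub : PP s ⊆ c₂.support := Finset.filter_subset _ _
    rw [← Finset.sum_subset hsub]
    · refine Finset.sum_congr rfl fun π hπ => ?_
      rw [pr_smul, hPP2 s π hπ]
    · intro π hπ hπ'
      rw [pr_smul, pr_eq_zero_of65 (hp s hs).wsupp, mul_zero]
      intro h
      exact hπ' (Finset.mem_filter.mpr ⟨hπ, h⟩)
  set F2 : Finset ℕ := F.filter (fun s => 2 ≤ (PP s).card) with hF2
  set F1 : Finset ℕ := F.filter (fun s => ∃ π, PP s = {π} ∧ π ≠ π₀) with hF1
  set S : Finset ℕ := F.filter (fun s => PP s = {π₀}) with hSdef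
  -- two large children
  have hbig : ∀ s, ∃ π, s ∈ F2 → (L s < π ∧ π ≤ r s ∧ θ ≤ |c π|) := by
    intro s
    by_cases hs : s ∈ F2
    · obtain ⟨hsF, hcard⟩ := Finset.mem_filter.mp hs
      obtain ⟨π, hπ, π', hπ', hne⟩ := Finset.one_lt_card.mp (show 1 < (PP s).card by omega)
      have hmain : ∀ a ∈ PP s, ∀ a' ∈ PP s, a < a' → L s < a' ∧ a' ≤ r s ∧ θ ≤ |c a'| := by
        intro a ha a' ha' hlt
        obtain ⟨n, hn, hn1, hn2⟩ := (Finset.mem_filter.mp ha).2
        obtain ⟨n', hn', hn1', hn2'⟩ := (Finset.mem_filter.mp ha').2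
        have h1 := hP.s2 a (hPPc s a ha) a' (hPPc s a' ha') hlt n hn
        have h2 := hP.s1 a' (hPPc s a' ha') n' hn'
        have h3 := (hL s hsF).2.1
        exact ⟨by omega, by omega, hPPθ s a' ha'⟩
      rcases lt_or_gt_of_ne hne with hlt | hlt
      · exact ⟨π', fun _ => hmain π hπ π' hπ' hlt⟩
      · exact ⟨π, fun _ => hmain π' hπ' π hπ hlt⟩
    · exact ⟨0, fun h => absurd h hs⟩
  choose top htop using hbig
  have hB2 : ∑ s ∈ F2, b s ≤ 8 ^ (2 * v) * (bb v' * δ₀) := by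
    have h1 := hω (fun s => if s ∈ F2 then Finsupp.single (top s) 1 else 0) (by
      intro s hs
      by_cases h : s ∈ F2
      · simp only [if_pos h]
        refine ⟨fun n hn => ?_, ?_⟩
        · have : n = top s := Finset.mem_singleton.mp (Finsupp.support_single_subset hn)
          rw [this]
          exact ⟨(htop s h).1, (htop s h).2.1⟩
        · rw [tau_single, abs_one]
      · simp only [if_neg h]
        refine ⟨fun n hn => by simp at hn, ?_⟩
        rw [tau_zero]; norm_num)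
    have h2 := hP.c2 (∑ s ∈ F, b s • (if s ∈ F2 then Finsupp.single (top s) 1 else 0 : Fn))
    rw [prA_comm, prA_sum_left_of_nonneg] at h2
    swap
    · intro s hs n
      rw [Finsupp.smul_apply, smul_eq_mul]
      refine mul_nonneg (hb s hs).le ?_
      split
      · rw [Finsupp.single_apply]; split <;> norm_num
      · exact le_rfl
    have h3 : ∑ s ∈ F2, b s * θ ≤
        ∑ s ∈ F, prA (b s • (if s ∈ F2 then Finsupp.single (top s) 1 else 0 : Fn)) c := by
      refine (Finset.sum_le_sum fun s hs => ?_).trans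
        (Finset.sum_le_sum_of_subset_of_nonneg (Finset.filter_subset _ _)
          fun s _ _ => prA_nonneg _ _)
      have hsF := (Finset.mem_filter.mp hs).1
      rw [if_pos hs, prA_smul_left, prA_single_left, abs_one, one_mul, abs_of_pos (hb s hsF)]
      exact mul_le_mul_of_nonneg_left (htop s hs).2.2 (hb s hsF).le
    rw [← Finset.sum_mul] at h3
    have h4 : (∑ s ∈ F2, b s) * θ ≤ bb v' * δ₀ :=
      h3.trans (h2.trans (mul_le_mul_of_nonneg_left h1 hbv.le))
    have h5 : (8 : ℝ) ^ (2 * v) * θ = 1 := by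
      rw [hθ, ← mul_pow]; norm_num
    calc ∑ s ∈ F2, b s = 8 ^ (2 * v) * ((∑ s ∈ F2, b s) * θ) := by
          rw [← mul_assoc, mul_comm ((8 : ℝ) ^ (2 * v)) (∑ s ∈ F2, b s), mul_assoc, h5, mul_one]
      _ ≤ _ := mul_le_mul_of_nonneg_left h4 (by positivity)
  -- one large child, different from `π₀`
  have hq' : ∀ π, ∃ q : Fn, π ∈ c.support → (UB 1 q ∧ (∀ u ∈ q.support, π ≤ u) ∧
      ∀ (L l r : ℕ) (y : Fn) (w : ℕ → ℝ), IsPair L l r y w → L < l → l ≤ r →
        (∃ n ∈ (g π).support, l ≤ n ∧ n ≤ r) →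
        ∃ ω : Fn, (∀ u, 0 ≤ ω u) ∧ (∀ u ∈ ω.support, L < u ∧ u ≤ r) ∧ tau ω ≤ 1 ∧
          |pr (g π) w| ≤ 23 * (1 / 4 : ℝ) ^ π + 8 * prA ω q) := by
    intro π
    by_cases h : π ∈ c.support
    · obtain ⟨q, hq⟩ := child_bound65 (hP.hg π h) (hP.s1 π h)
      exact ⟨q, fun _ => hq⟩
    · exact ⟨0, fun h' => absurd h' h⟩
  choose q hq using hq'
  have hp1' : ∀ s, ∃ π, s ∈ F1 → (PP s = {π} ∧ π ≠ π₀) := by
    intro s
    by_cases hs : s ∈ F1
    · obtain ⟨π, hπ⟩ := (Finset.mem_filter.mp hs).2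
      exact ⟨π, fun _ => hπ⟩
    · exact ⟨0, fun h => absurd h hs⟩
  choose p1 hp1 using hp1'
  have hp1m : ∀ s ∈ F1, p1 s ∈ PP s := fun s hs => by
    rw [(hp1 s hs).1]; exact Finset.mem_singleton_self _
  have hω1' : ∀ s, ∃ ω : Fn, s ∈ F1 → ((∀ u, 0 ≤ ω u) ∧ (∀ u ∈ ω.support, L s < u ∧ u ≤ r s) ∧
      tau ω ≤ 1 ∧ |pr (g (p1 s)) (w s)| ≤ 23 * (1 / 4 : ℝ) ^ (p1 s) + 8 * prA ω (q (p1 s))) := by
    intro s
    by_cases hs : s ∈ F1
    · have hsF := (Finset.mem_filter.mp hs).1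
      obtain ⟨ω, h⟩ := (hq (p1 s) (hPPc s _ (hp1m s hs))).2.2 (L s) (l s) (r s) (y s) (w s)
        (hp s hsF) (hL s hsF).2.1 (hL s hsF).2.2 (Finset.mem_filter.mp (hp1m s hs)).2
      exact ⟨ω, fun _ => h⟩
    · exact ⟨0, fun h => absurd h hs⟩
  choose ω1 hω1 using hω1'
  set W : ℕ → Set ℕ := fun π => {u | ∃ s ∈ F1, p1 s = π ∧ L s < u ∧ u ≤ r s} with hW
  set C : Fn := ∑ π ∈ c.support, c π • res (W π) (q π) with hCdef
  have hC : UB (bb v' * 1) C := by
    refine ub_comp hP.c2 zero_le_one _ (fun π hπ => ub_res (hq π hπ).1 _) ?_ ?_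
    · intro π hπ n hn
      exact (hq π hπ).2.1 n (res_support _ _ hn).1
    · intro π hπ π' hπ' hne
      rw [Finset.disjoint_left]
      intro n hn hn'
      obtain ⟨s, hs, rfl, h1, h2⟩ := (res_support _ _ hn).2
      obtain ⟨s', hs', rfl, h1', h2'⟩ := (res_support _ _ hn').2
      have := hwin s (Finset.mem_filter.mp hs).1 s' (Finset.mem_filter.mp hs').1 n h1 h2 h1' h2'
      exact hne (by rw [this])
  have hCval : ∀ s ∈ F1, ∀ u ∈ (ω1 s).support, C u = c (p1 s) * q (p1 s) u := by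
    intro s hs u hu
    have hu' := (hω1 s hs).2.1 u hu
    rw [hCdef, Finsupp.finsetSum_apply, Finset.sum_eq_single (p1 s)]
    · rw [Finsupp.smul_apply, smul_eq_mul, res_apply, if_pos]
      exact ⟨s, hs, rfl, hu'⟩
    · intro π _ hne
      rw [Finsupp.smul_apply, smul_eq_mul, res_apply, if_neg, mul_zero]
      rintro ⟨s', hs', rfl, h1, h2⟩
      have := hwin s (Finset.mem_filter.mp hs).1 s' (Finset.mem_filter.mp hs').1 u hu'.1 hu'.2 h1 h2
      exact hne (by rw [this])
    · intro h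
      exact absurd (hPPc s _ (hp1m s hs)) h
  have hprC : ∀ s ∈ F1, prA (ω1 s) C = |c (p1 s)| * prA (ω1 s) (q (p1 s)) := by
    intro s hs
    unfold prA
    rw [Finset.mul_sum]
    refine Finset.sum_congr rfl fun u hu => ?_
    rw [hCval s hs u hu, abs_mul]
    ring
  have hB1 : ∑ s ∈ F1, b s * (|c (p1 s)| * prA (ω1 s) (q (p1 s))) ≤ bb v' * δ₀ := by
    have h1 := hω (fun s => if s ∈ F1 then ω1 s else 0) (by
      intro s hs
      by_cases h : s ∈ F1
      · simp only [if_pos h]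
        exact ⟨(hω1 s h).2.1, (hω1 s h).2.2.1⟩
      · simp only [if_neg h]
        refine ⟨fun n hn => by simp at hn, ?_⟩
        rw [tau_zero]; norm_num)
    have h2 := hC (∑ s ∈ F, b s • (if s ∈ F1 then ω1 s else 0 : Fn))
    rw [prA_comm, prA_sum_left_of_nonneg] at h2
    swap
    · intro s hs n
      rw [Finsupp.smul_apply, smul_eq_mul]
      refine mul_nonneg (hb s hs).le ?_
      split
      · rename_i h; exact (hω1 s h).1 n
      · exact le_rfl
    have h3 : ∑ s ∈ F1, b s * (|c (p1 s)| * prA (ω1 s) (q (p1 s))) ≤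
        ∑ s ∈ F, prA (b s • (if s ∈ F1 then ω1 s else 0 : Fn)) C := by
      refine (Finset.sum_le_sum fun s hs => ?_).trans
        (Finset.sum_le_sum_of_subset_of_nonneg (Finset.filter_subset _ _)
          fun s _ _ => prA_nonneg _ _)
      have hsF := (Finset.mem_filter.mp hs).1
      rw [if_pos hs, prA_smul_left, hprC s hs, abs_of_pos (hb s hsF)]
    rw [mul_one] at h2
    exact h3.trans (h2.trans (mul_le_mul_of_nonneg_left h1 hbv.le))
  -- the error of one `s`
  set D : ℕ → ℝ := fun s => pr (patF c₂ g) (w s) - (if s ∈ S then c π₀ * pr (g π₀) (w s) else 0)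
    with hD
  have hDle : ∀ s ∈ F, b s * |D s| ≤ (if s ∈ F2 then b s * (10 / 8) else 0) +
      (if s ∈ F1 then b s * (23 * (1 / 4 : ℝ) ^ Lst) +
        8 * (b s * (|c (p1 s)| * prA (ω1 s) (q (p1 s)))) else 0) := by
    intro s hs
    have hbs := hb s hs
    have hF1nn : 0 ≤ (if s ∈ F1 then b s * (23 * (1 / 4 : ℝ) ^ Lst) +
        8 * (b s * (|c (p1 s)| * prA (ω1 s) (q (p1 s)))) else 0) := by
      split
      · have := prA_nonneg (ω1 s) (q (p1 s))
        positivity
      · exact le_rfl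
    have hF2nn : 0 ≤ (if s ∈ F2 then b s * (10 / 8) else 0) := by
      split
      · positivity
      · exact le_rfl
    by_cases h2 : 2 ≤ (PP s).card
    · have hsF2 : s ∈ F2 := Finset.mem_filter.mpr ⟨hs, h2⟩
      have hsS : s ∉ S := by
        intro h
        have h' := (Finset.mem_filter.mp h).2
        rw [h', Finset.card_singleton] at h2
        omega
      rw [if_pos hsF2]
      have h3 : |D s| ≤ 10 / 8 := by
        rw [hD]
        simp only [if_neg hsS, sub_zero]
        refine ((hp s hs).low v' hv' (by have := (hL s hs).1; omega) _ hT₂).trans ?_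
        have : (1 / 8 : ℝ) ^ v' ≤ (1 / 8 : ℝ) ^ 1 :=
          pow_le_pow_of_le_one (by norm_num) (by norm_num) hv'
        rw [pow_one] at this
        linarith
      have := mul_le_mul_of_nonneg_left h3 hbs.le
      linarith
    · have hc : (PP s).card = 0 ∨ (PP s).card = 1 := by omega
      rcases hc with hc | hc
      · have hemp : PP s = ∅ := Finset.card_eq_zero.mp hc
        have hsS : s ∉ S := by
          intro h
          have h' := (Finset.mem_filter.mp h).2
          rw [h', Finset.card_singleton] at hc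
          omega
        have h3 : D s = 0 := by
          rw [hD]
          simp only [if_neg hsS, sub_zero]
          rw [hE s hs, hemp, Finset.sum_empty]
        rw [h3, abs_zero, mul_zero]
        positivity
      · obtain ⟨π, hπ⟩ := Finset.card_eq_one.mp hc
        by_cases hππ : π = π₀
        · rw [hππ] at hπ
          have hsS : s ∈ S := Finset.mem_filter.mpr ⟨hs, hπ⟩
          have h3 : D s = 0 := by
            rw [hD]
            simp only [if_pos hsS]
            rw [hE s hs, hπ, Finset.sum_singleton, sub_self]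
          rw [h3, abs_zero, mul_zero]
          positivity
        · have hsF1 : s ∈ F1 := Finset.mem_filter.mpr ⟨hs, π, hπ, hππ⟩
          have hpi : p1 s = π := by
            have := (hp1 s hsF1).1
            rw [hπ] at this
            exact (Finset.singleton_inj.mp this).symm
          have hsS : s ∉ S := by
            intro h
            have h' := (Finset.mem_filter.mp h).2
            rw [hπ] at h'
            exact hππ (Finset.singleton_inj.mp h')
          have h3 : D s = c (p1 s) * pr (g (p1 s)) (w s) := by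
            rw [hD]
            simp only [if_neg hsS, sub_zero]
            rw [hE s hs, hπ, Finset.sum_singleton, hpi]
          rw [if_pos hsF1, h3, abs_mul]
          have h4 := (hω1 s hsF1).2.2.2
          have hmem := hp1m s hsF1
          have hLp : Lst < p1 s := hπ₀ (p1 s) (hPPc s _ hmem) (by rw [hpi]; exact hππ)
            ⟨s, hs, (Finset.mem_filter.mp hmem).2⟩
          have h5 : (1 / 4 : ℝ) ^ (p1 s) ≤ (1 / 4 : ℝ) ^ Lst :=
            pow_le_pow_of_le_one (by norm_num) (by norm_num) hLp.le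
          have h6 : |c (p1 s)| ≤ 1 :=
            (hP.c1 _).trans (pow_le_one₀ (by norm_num) (by norm_num))
          have h7 : |c (p1 s)| * |pr (g (p1 s)) (w s)| ≤ 23 * (1 / 4 : ℝ) ^ Lst +
              8 * (|c (p1 s)| * prA (ω1 s) (q (p1 s))) := by
            calc |c (p1 s)| * |pr (g (p1 s)) (w s)|
                ≤ |c (p1 s)| * (23 * (1 / 4 : ℝ) ^ (p1 s) + 8 * prA (ω1 s) (q (p1 s))) :=
                  mul_le_mul_of_nonneg_left h4 (abs_nonneg _)
              _ = |c (p1 s)| * (23 * (1 / 4 : ℝ) ^ (p1 s)) +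
                  8 * (|c (p1 s)| * prA (ω1 s) (q (p1 s))) := by ring
              _ ≤ 1 * (23 * (1 / 4 : ℝ) ^ Lst) +
                  8 * (|c (p1 s)| * prA (ω1 s) (q (p1 s))) := by
                  refine add_le_add ?_ le_rfl
                  exact mul_le_mul h6 (by linarith) (by positivity) zero_le_one
              _ = _ := by ring
          have h8 := mul_le_mul_of_nonneg_left h7 hbs.le
          calc b s * (|c (p1 s)| * |pr (g (p1 s)) (w s)|)
              ≤ b s * (23 * (1 / 4 : ℝ) ^ Lst + 8 * (|c (p1 s)| * prA (ω1 s) (q (p1 s)))) := h8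
            _ ≤ _ := by linarith
  have hDsum : ∑ s ∈ F, b s * |D s| ≤ (10 / 8) * (8 ^ (2 * v) * (bb v' * δ₀)) +
      (23 * (1 / 4 : ℝ) ^ Lst + 8 * (bb v' * δ₀)) := by
    refine (Finset.sum_le_sum hDle).trans ?_
    rw [Finset.sum_add_distrib, Finset.sum_ite_mem, Finset.sum_ite_mem]
    have e2 : F ∩ F2 = F2 := Finset.inter_eq_right.mpr (Finset.filter_subset _ _)
    have e1 : F ∩ F1 = F1 := Finset.inter_eq_right.mpr (Finset.filter_subset _ _)
    rw [e1, e2, ← Finset.sum_mul, Finset.sum_add_distrib, ← Finset.sum_mul, ← Finset.mul_sum]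
    have h1 : ∑ s ∈ F1, b s ≤ 1 := by
      rw [← hb1]
      exact Finset.sum_le_sum_of_subset_of_nonneg (Finset.filter_subset _ _)
        fun s hs _ => (hb s hs).le
    have h2 : (∑ s ∈ F1, b s) * (23 * (1 / 4 : ℝ) ^ Lst) ≤ 1 * (23 * (1 / 4 : ℝ) ^ Lst) :=
      mul_le_mul_of_nonneg_right h1 (by positivity)
    linarith
  have hA : |∑ s ∈ F, b s * pr (patF c₁ g) (w s)| ≤ 10 * θ := by
    calc |∑ s ∈ F, b s * pr (patF c₁ g) (w s)| ≤ ∑ s ∈ F, b s * (10 * θ) := by
          refine (Finset.abs_sum_le_sum_abs _ _).trans (Finset.sum_le_sum fun s hs => ?_)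
          rw [abs_mul, abs_of_pos (hb s hs)]
          exact mul_le_mul_of_nonneg_left
            ((hp s hs).low (2 * v) (by omega) (by have := (hL s hs).1; omega) _ hT₁) (hb s hs).le
      _ = 10 * θ := by rw [← Finset.sum_mul, hb1, one_mul]
  refine ⟨S, Finset.filter_subset _ _, ?_⟩
  have htot : 8 ^ v * ∑ s ∈ F, b s * pr (patF c g) (w s) -
      c π₀ * (8 ^ v * ∑ s ∈ S, b s * pr (g π₀) (w s)) =
      8 ^ v * (∑ s ∈ F, b s * pr (patF c₁ g) (w s) + ∑ s ∈ F, b s * D s) := by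
    have h1 : ∑ s ∈ F, b s * pr (patF c g) (w s) = ∑ s ∈ F, b s * pr (patF c₁ g) (w s) +
        ∑ s ∈ F, b s * pr (patF c₂ g) (w s) := by
      rw [← Finset.sum_add_distrib]
      refine Finset.sum_congr rfl fun s _ => ?_
      rw [hsplit, pr_add]; ring
    have h2 : ∑ s ∈ F, b s * D s = ∑ s ∈ F, b s * pr (patF c₂ g) (w s) -
        ∑ s ∈ S, b s * (c π₀ * pr (g π₀) (w s)) := by
      have e0 : F ∩ S = S := Finset.inter_eq_right.mpr (Finset.filter_subset _ _)
      have e3 : ∑ s ∈ S, b s * (c π₀ * pr (g π₀) (w s)) =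
          ∑ s ∈ F, if s ∈ S then b s * (c π₀ * pr (g π₀) (w s)) else 0 := by
        rw [Finset.sum_ite_mem, e0]
      rw [e3, ← Finset.sum_sub_distrib]
      refine Finset.sum_congr rfl fun s _ => ?_
      rw [hD]
      simp only
      split
      · ring
      · ring
    have h3 : ∑ s ∈ S, b s * (c π₀ * pr (g π₀) (w s)) = c π₀ * ∑ s ∈ S, b s * pr (g π₀) (w s) := by
      rw [Finset.mul_sum]
      exact Finset.sum_congr rfl fun s _ => by ring
    rw [h1, h2, h3]
    ring
  rw [htot, abs_mul, abs_of_pos (by positivity : (0 : ℝ) < 8 ^ v)]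
  have hDabs : |∑ s ∈ F, b s * D s| ≤ ∑ s ∈ F, b s * |D s| := by
    refine (Finset.abs_sum_le_sum_abs _ _).trans (le_of_eq ?_)
    exact Finset.sum_congr rfl fun s hs => by rw [abs_mul, abs_of_pos (hb s hs)]
  have hsum := (abs_add_le (∑ s ∈ F, b s * pr (patF c₁ g) (w s)) (∑ s ∈ F, b s * D s)).trans
    (add_le_add hA (hDabs.trans hDsum))
  have hmul := mul_le_mul_of_nonneg_left hsum (by positivity : (0 : ℝ) ≤ 8 ^ v)
  refine hmul.trans ?_
  -- numbers
  set x : ℝ := (1 / 8 : ℝ) ^ v with hx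
  have hxpos : 0 < x := by positivity
  have hx1 : x ≤ 1 := pow_le_one₀ (by norm_num) (by norm_num)
  have hyx : (8 : ℝ) ^ v * x = 1 := by rw [hx, ← mul_pow]; norm_num
  have hθx : θ = x ^ 2 := by rw [hθ, hx, ← pow_mul, mul_comm]
  have h82 : (8 : ℝ) ^ (2 * v) = (8 ^ v) ^ 2 := by rw [← pow_mul, mul_comm]
  have hbδ : bb v' * δ₀ ≤ x ^ 4 / 32 := by
    have h1 : bb v' ≤ bb (v - 1) := bb_mono (by omega)
    have h2 : bb v' * δ₀ ≤ bb (v - 1) * δ₀ := mul_le_mul_of_nonneg_right h1 hδ₀pos.le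
    refine h2.trans (le_of_eq ?_)
    have hb' := bb_pos (v - 1)
    have h3 : (2 : ℝ) ^ (12 * v + 5) = (8 ^ v) ^ 4 * 32 := by
      rw [pow_add, show (8 : ℝ) = 2 ^ 3 by norm_num, ← pow_mul, ← pow_mul]
      norm_num
      ring_nf
    rw [hδ₀, h3]
    have h4 : x = 1 / 8 ^ v := by rw [hx, one_div, one_div, inv_pow]
    rw [h4]
    field_simp
  have hbδ0 : 0 ≤ bb v' * δ₀ := by positivity
  rw [hθx, h82]
  set Y : ℝ := (8 : ℝ) ^ v with hY
  have hYpos : 0 < Y := by positivity
  have e1 : Y * (10 * x ^ 2) = 10 * x := by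
    calc Y * (10 * x ^ 2) = 10 * x * (Y * x) := by ring
      _ = 10 * x := by rw [hyx, mul_one]
  have e2 : Y * (10 / 8 * (Y ^ 2 * (bb v' * δ₀))) ≤ x := by
    calc Y * (10 / 8 * (Y ^ 2 * (bb v' * δ₀))) ≤ Y * (10 / 8 * (Y ^ 2 * (x ^ 4 / 32))) := by
          gcongr
      _ = 10 / 256 * x * (Y * x) ^ 3 := by ring
      _ ≤ x := by rw [hyx]; linarith
  have e3 : Y * (8 * (bb v' * δ₀)) ≤ x := by
    calc Y * (8 * (bb v' * δ₀)) ≤ Y * (8 * (x ^ 4 / 32)) := by gcongr
      _ = x ^ 3 / 4 * (Y * x) := by ring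
      _ ≤ x := by
          rw [hyx, mul_one]
          have : x ^ 3 ≤ x := by
            calc x ^ 3 = x * x ^ 2 := by ring
              _ ≤ x * 1 := by
                  refine mul_le_mul_of_nonneg_left ?_ hxpos.le
                  exact pow_le_one₀ hxpos.le hx1
              _ = x := mul_one x
          linarith
  calc Y * (10 * x ^ 2 + (10 / 8 * (Y ^ 2 * (bb v' * δ₀)) +
        (23 * (1 / 4) ^ Lst + 8 * (bb v' * δ₀))))
      = Y * (10 * x ^ 2) + Y * (10 / 8 * (Y ^ 2 * (bb v' * δ₀))) + 23 * Y * (1 / 4) ^ Lst +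
        Y * (8 * (bb v' * δ₀)) := by ring
    _ ≤ 12 * x + 23 * Y * (1 / 4) ^ Lst := by rw [e1]; linarith

end Pool.Agent.Helper23.AC
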