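import Pool.Agent.Helper23.AC.UBall

/-! MP_981e7e_an: reindexed composition lemma and block sequences. -/

set_option autoImplicit false
namespace Pool.Agent.Helper23.AC
open Finset

/-- `ub_comp` with an arbitrary finite index set -/
theorem ub_comp_idx {lam mu : ℝ} (F : Finset ℕ) (a : ℕ → ℝ) (p : ℕ → ℕ)
    (hp : ∀ i ∈ F, ∀ j ∈ F, p i = p j → i = j)
    (h : UB lam (∑ i ∈ F, Finsupp.single (p i) (a i))) (hmu : 0 ≤ mu) (u : ℕ → Fn)
    (hu : ∀ i ∈ F, UB mu (u i)) (hs : ∀ i ∈ F, ∀ n ∈ (u i).support, p i ≤ n)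
    (hdisj : ∀ i ∈ F, ∀ j ∈ F, i ≠ j → Disjoint (u i).support (u j).support) :
    UB (lam * mu) (∑ i ∈ F, a i • u i) := by
  classical
  set c : Fn := ∑ i ∈ F, Finsupp.single (p i) (a i) with hc
  have hcval : ∀ i ∈ F, c (p i) = a i := by
    intro i hi
    rw [hc, Finsupp.finsetSum_apply, Finset.sum_eq_single i]
    · simp
    · intro j hj hji
      rw [Finsupp.single_apply, if_neg]
      exact fun h' => hji (hp j hj i hi h')
    · exact fun h' => absurd hi h'
  have hcsupp : ∀ n, c n ≠ 0 → ∃ i ∈ F, p i = n := by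
    intro n hn
    by_contra hcon
    push Not at hcon
    apply hn
    rw [hc, Finsupp.finsetSum_apply]
    exact Finset.sum_eq_zero fun j hj => by rw [Finsupp.single_apply, if_neg (hcon j hj)]
  have hq : ∀ n, n ∈ c.support → ∃ i, i ∈ F ∧ p i = n := fun n hn => by
    obtain ⟨i, hi, hin⟩ := hcsupp n (Finsupp.mem_support_iff.mp hn)
    exact ⟨i, hi, hin⟩
  let q : ℕ → ℕ := fun n => if hn : ∃ i, i ∈ F ∧ p i = n then hn.choose else 0
  have hqp : ∀ i ∈ F, q (p i) = i := by
    intro i hi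
    have hex : ∃ j, j ∈ F ∧ p j = p i := ⟨i, hi, rfl⟩
    simp only [q, dif_pos hex]
    exact hp _ hex.choose_spec.1 _ hi hex.choose_spec.2
  have key := ub_comp (c := c) h hmu (fun n => u (q n))
    (fun n hn => by
      obtain ⟨i, hi, rfl⟩ := hq n hn
      show UB mu (u (q (p i)))
      rw [hqp i hi]; exact hu i hi)
    (fun n hn m hm => by
      obtain ⟨i, hi, rfl⟩ := hq n hn
      change m ∈ (u (q (p i))).support at hm
      rw [hqp i hi] at hm
      exact hs i hi m hm)
    (fun n hn m hm hnm => by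
      obtain ⟨i, hi, rfl⟩ := hq n hn
      obtain ⟨j, hj, rfl⟩ := hq m hm
      show Disjoint (u (q (p i))).support (u (q (p j))).support
      rw [hqp i hi, hqp j hj]
      exact hdisj i hi j hj fun h' => hnm (by rw [h']))
  have heq : ∑ n ∈ c.support, c n • u (q n) = ∑ i ∈ F, a i • u i := by
    have h1 : ∑ n ∈ c.support, c n • u (q n) = ∑ n ∈ F.image p, c n • u (q n) := by
      refine Finset.sum_subset ?_ ?_
      · intro n hn
        obtain ⟨i, hi, rfl⟩ := hq n hn
        exact Finset.mem_image_of_mem p hi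
      · intro n _ hn
        rw [Finsupp.notMem_support_iff.mp hn, zero_smul]
    rw [h1, Finset.sum_image (fun i hi j hj hij => hp i hi j hj hij)]
    exact Finset.sum_congr rfl fun i hi => by rw [hcval i hi, hqp i hi]
  rw [← heq]
  exact key

theorem Blk.r_lt_l {x : ℕ → Fn} {l r : ℕ → ℕ} (hB : Blk x l r) {s t : ℕ} (h : s < t) :
    r s < l t := by
  induction t with
  | zero => omega
  | succ t ih =>
    rcases Nat.lt_succ_iff_lt_or_eq.mp h with h1 | h1
    · have := ih h1
      have h2 := hB.lr t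
      have h3 := hB.sep t
      omega
    · rw [h1]; exact hB.sep t

theorem Blk.l_le_l {x : ℕ → Fn} {l r : ℕ → ℕ} (hB : Blk x l r) {s t : ℕ} (h : s ≤ t) :
    l s ≤ l t := by
  rcases h.lt_or_eq with h1 | h1
  · exact (hB.lr s).trans (hB.r_lt_l h1).le
  · rw [h1]

theorem Blk.r_le_r {x : ℕ → Fn} {l r : ℕ → ℕ} (hB : Blk x l r) {s t : ℕ} (h : s ≤ t) :
    r s ≤ r t := by
  rcases h.lt_or_eq with h1 | h1
  · exact (hB.r_lt_l h1).le.trans (hB.lr t)
  · rw [h1]

theorem Blk.r_lt_r {x : ℕ → Fn} {l r : ℕ → ℕ} (hB : Blk x l r) {s t : ℕ} (h : s < t) :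
    r s < r t := (hB.r_lt_l h).trans_le (hB.lr t)

end Pool.Agent.Helper23.AC
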