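import Pool.Agent.Helper8.AC.Step1
import Pool.Agent.Helper65.AC.Comp

/-! AC-9: step2 (the blocking argument) for MP_981e7e_an. -/

set_option autoImplicit false
namespace Pool.Agent.Helper23.AC
open Finset

/-- blocks of level `D` -/
structure LevBlk (X : ℕ → Fn) (R : ℕ → ℕ) (k D : ℕ) (G : Finset ℕ) (δ : ℕ → ℝ) : Prop where
  ne : G.Nonempty
  nrm : nx (∑ s ∈ G, δ s • X (s + 1)) = 1
  small : ∀ s ∈ G, |δ s| ≤ (1 / 2 : ℝ) ^ D
  ub : UB ((2 ^ k / 2) ^ D) (∑ s ∈ G, Finsupp.single (R s + 1) (δ s))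

/-- sums over a union with summed coefficients -/
theorem sum_biUnion_coeff {M : Type*} [AddCommGroup M] [Module ℝ M] (F : Finset ℕ)
    (H : ℕ → Finset ℕ) (e : ℕ → ℕ → ℝ) (Φ : ℕ → M) :
    ∑ s ∈ F.biUnion H, (∑ i ∈ F, if s ∈ H i then e i s else 0) • Φ s =
      ∑ i ∈ F, ∑ s ∈ H i, e i s • Φ s := by
  classical
  simp_rw [Finset.sum_smul]
  rw [Finset.sum_comm]
  refine Finset.sum_congr rfl fun i hi => ?_
  have hsub : H i ⊆ F.biUnion H := Finset.subset_biUnion_of_mem H hi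
  rw [← Finset.sum_subset hsub]
  · exact Finset.sum_congr rfl fun s hs => by rw [if_pos hs]
  · intro s _ hs
    rw [if_neg hs, zero_smul]

theorem levBlk_step {x X : ℕ → Fn} {l l₁ R : ℕ → ℕ} {k D : ℕ} (hB : Blk X l₁ R)
    (hl : ∀ i, l 0 ≤ l₁ i) (hspan : ∀ i, X i ∈ Submodule.span ℝ (Set.range x))
    (hfail : ∀ (y : ℕ → Fn) (l' r' : ℕ → ℕ), Blk y l' r' → (∀ i, l 0 ≤ l' i) →
      (∀ i, y i ∈ Submodule.span ℝ (Set.range x)) → (∀ i, nx (y i) = 1) →
      ∃ (F : Finset ℕ) (c : ℕ → ℝ), (∀ i ∈ F, |c i| ≤ 1) ∧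
        UB (2 ^ k) (∑ i ∈ F, Finsupp.single (r' i + 1) (c i)) ∧
        2 < nx (∑ i ∈ F, c i • y (i + 1)))
    (h : ∀ m, ∃ G δ, (∀ s ∈ G, m ≤ s) ∧ LevBlk X R k D G δ) :
    ∀ m, ∃ G δ, (∀ s ∈ G, m ≤ s) ∧ LevBlk X R k (D + 1) G δ := by
  classical
  intro m
  choose G δ hG hGδ using h
  -- thresholds
  obtain ⟨P, hP0, hPs⟩ : ∃ P : ℕ → ℕ, P 0 = m ∧ ∀ i, P (i + 1) = (G (P i)).sup id + 1 :=
    ⟨fun i => Nat.rec m (fun _ p => (G p).sup id + 1) i, rfl, fun i => rfl⟩
  have hHge : ∀ i, ∀ s ∈ G (P i), P i ≤ s := fun i => hG (P i)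
  have hHlt : ∀ i, ∀ s ∈ G (P i), s < P (i + 1) := by
    intro i s hs
    rw [hPs]
    exact Nat.lt_succ_of_le (Finset.le_sup (f := id) hs)
  have hPlt : ∀ i, P i < P (i + 1) := by
    intro i
    obtain ⟨s, hs⟩ := (hGδ (P i)).ne
    exact (hHge i s hs).trans_lt (hHlt i s hs)
  have hPmono : StrictMono P := strictMono_nat_of_lt_succ hPlt
  set H : ℕ → Finset ℕ := fun i => G (P (i + 1)) with hH
  set e : ℕ → ℕ → ℝ := fun i => δ (P (i + 1)) with he
  -- disjointness
  have hdisjH : ∀ i j s, s ∈ H i → s ∈ H j → i = j := by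
    intro i j s hi hj
    rcases lt_trichotomy i j with hlt | heq | hgt
    · have h1 := hHlt (i + 1) s hi
      have h2 := hHge (j + 1) s hj
      have h3 : P (i + 1 + 1) ≤ P (j + 1) := hPmono.monotone (by omega)
      omega
    · exact heq
    · have h1 := hHlt (j + 1) s hj
      have h2 := hHge (i + 1) s hi
      have h3 : P (j + 1 + 1) ≤ P (i + 1) := hPmono.monotone (by omega)
      omega
  -- the sequence
  set y : ℕ → Fn := fun i => ∑ s ∈ G (P i), δ (P i) s • X (s + 1) with hy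
  have hyB : Blk y (fun i => l₁ (P i + 1)) (fun i => R (P (i + 1))) := by
    refine ⟨?_, ?_, ?_⟩
    · intro i
      exact (hB.lr _).trans (hB.r_le_r (hPlt i))
    · intro i
      exact hB.r_lt_l (Nat.lt_succ_self _)
    · intro i n hn
      have hn' : (∑ s ∈ G (P i), δ (P i) s • X (s + 1)) n ≠ 0 := Finsupp.mem_support_iff.mp hn
      rw [Finsupp.finsetSum_apply] at hn'
      obtain ⟨s, hs, hsn⟩ := Finset.exists_ne_zero_of_sum_ne_zero hn'
      have hsn' : X (s + 1) n ≠ 0 := by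
        intro h0
        apply hsn
        rw [Finsupp.smul_apply, h0, smul_zero]
      have h1 := hB.supp (s + 1) n (Finsupp.mem_support_iff.mpr hsn')
      have h2 := hHge i s hs
      have h3 := hHlt i s hs
      exact ⟨(hB.l_le_l (by omega)).trans h1.1, h1.2.trans (hB.r_le_r (by omega))⟩
  obtain ⟨F, c, hc1, hcU, hcN⟩ := hfail y _ _ hyB (fun i => hl _)
    (fun i => Submodule.sum_mem _ fun s _ => Submodule.smul_mem _ _ (hspan _))
    (fun i => (hGδ (P i)).nrm)
  set N := nx (∑ i ∈ F, c i • y (i + 1)) with hN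
  have hNpos : 0 < N := by linarith
  have hFne : F.Nonempty := by
    rw [Finset.nonempty_iff_ne_empty]
    rintro rfl
    rw [Finset.sum_empty, nx_zero] at hN
    linarith
  refine ⟨F.biUnion H, fun s => ∑ i ∈ F, if s ∈ H i then (c i / N) * e i s else 0, ?_, ?_⟩
  · intro s hs
    obtain ⟨i, _, hsi⟩ := Finset.mem_biUnion.mp hs
    have h1 := hHge (i + 1) s hsi
    have h2 : P 0 ≤ P (i + 1) := hPmono.monotone (by omega)
    omega
  refine ⟨?_, ?_, ?_, ?_⟩
  · obtain ⟨i, hi⟩ := hFne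
    obtain ⟨s, hs⟩ := (hGδ (P (i + 1))).ne
    exact ⟨s, Finset.mem_biUnion.mpr ⟨i, hi, hs⟩⟩
  · rw [sum_biUnion_coeff F H (fun i s => (c i / N) * e i s) (fun s => X (s + 1))]
    have h1 : ∑ i ∈ F, ∑ s ∈ H i, ((c i / N) * e i s) • X (s + 1) =
        (1 / N) • ∑ i ∈ F, c i • y (i + 1) := by
      rw [Finset.smul_sum]
      refine Finset.sum_congr rfl fun i _ => ?_
      rw [hy, smul_smul, Finset.smul_sum]
      refine Finset.sum_congr rfl fun s _ => ?_
      rw [smul_smul]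
      congr 1
      rw [he]
      ring
    rw [h1, nx_smul, ← hN, abs_of_pos (by positivity)]
    field_simp
  · intro s hs
    obtain ⟨i, hi, hsi⟩ := Finset.mem_biUnion.mp hs
    have h1 : (∑ j ∈ F, if s ∈ H j then (c j / N) * e j s else 0) = (c i / N) * e i s := by
      rw [Finset.sum_eq_single i]
      · rw [if_pos hsi]
      · intro j _ hji
        rw [if_neg]
        exact fun hsj => hji (hdisjH j i s hsj hsi)
      · exact fun h' => absurd hi h'
    show |∑ j ∈ F, if s ∈ H j then (c j / N) * e j s else 0| ≤ _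
    rw [h1, abs_mul, pow_succ, mul_comm ((1 / 2 : ℝ) ^ D)]
    refine mul_le_mul ?_ ((hGδ (P (i + 1))).small s hsi) (abs_nonneg _) (by norm_num)
    rw [abs_div, abs_of_pos hNpos, div_le_div_iff₀ hNpos (by norm_num)]
    nlinarith [hc1 i hi]
  · have h1 : ∑ s ∈ F.biUnion H, (Finsupp.single (R s + 1)
        (∑ i ∈ F, if s ∈ H i then (c i / N) * e i s else 0) : Fn) =
        ∑ i ∈ F, (c i / N) • ∑ s ∈ H i, Finsupp.single (R s + 1) (e i s) := by
      have h2 := sum_biUnion_coeff F H (fun i s => (c i / N) * e i s)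
        (fun s => (Finsupp.single (R s + 1) 1 : Fn))
      simp only [Finsupp.smul_single, smul_eq_mul, mul_one] at h2
      rw [h2]
      refine Finset.sum_congr rfl fun i _ => ?_
      rw [Finset.smul_sum]
      refine Finset.sum_congr rfl fun s _ => ?_
      rw [Finsupp.smul_single, smul_eq_mul]
    rw [h1, pow_succ, mul_comm]
    have hsupp : ∀ i, ∀ n ∈ (∑ s ∈ H i, (Finsupp.single (R s + 1) (e i s) : Fn)).support,
        ∃ s ∈ H i, n = R s + 1 := by
      intro i n hn
      have hn' := Finsupp.mem_support_iff.mp hn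
      rw [Finsupp.finsetSum_apply] at hn'
      obtain ⟨s, hs, hsn⟩ := Finset.exists_ne_zero_of_sum_ne_zero hn'
      refine ⟨s, hs, ?_⟩
      by_contra hne
      apply hsn
      rw [Finsupp.single_apply, if_neg (fun h' => hne h'.symm)]
    refine ub_comp_idx F (fun i => c i / N) (fun i => R (P (i + 1)) + 1) ?_ ?_ (by positivity)
      (fun i => ∑ s ∈ H i, Finsupp.single (R s + 1) (e i s)) ?_ ?_ ?_
    · intro i _ j _ hij
      have hij' : R (P (i + 1)) = R (P (j + 1)) := by simpa using hij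
      rcases lt_trichotomy i j with hlt | heq | hgt
      · have := hB.r_lt_r (hPmono (show i + 1 < j + 1 by omega)); omega
      · exact heq
      · have := hB.r_lt_r (hPmono (show j + 1 < i + 1 by omega)); omega
    · have h3 : ∑ i ∈ F, (Finsupp.single (R (P (i + 1)) + 1) (c i / N) : Fn) =
          (1 / N) • ∑ i ∈ F, Finsupp.single (R (P (i + 1)) + 1) (c i) := by
        rw [Finset.smul_sum]
        refine Finset.sum_congr rfl fun i _ => ?_
        rw [Finsupp.smul_single, smul_eq_mul]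
        congr 1
        ring
      rw [h3]
      refine ub_weaken ?_ (ub_smul (1 / N) hcU)
      rw [abs_of_pos (by positivity), one_div, inv_mul_eq_div]
      exact div_le_div_of_nonneg_left (by positivity) (by norm_num) hcN.le
    · intro i _
      exact (hGδ (P (i + 1))).ub
    · intro i _ n hn
      obtain ⟨s, hs, rfl⟩ := hsupp i n hn
      have := hB.r_le_r (hHge (i + 1) s hs)
      show R (P (i + 1)) + 1 ≤ R s + 1
      omega
    · intro i _ j _ hij
      rw [Finset.disjoint_left]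
      intro n hni hnj
      obtain ⟨s, hs, hns⟩ := hsupp i n hni
      obtain ⟨t, ht, hnt⟩ := hsupp j n hnj
      have hst : R s = R t := by omega
      have hst' : s = t := by
        rcases lt_trichotomy s t with hlt | heq | hgt
        · have := hB.r_lt_r hlt; omega
        · exact heq
        · have := hB.r_lt_r hgt; omega
      rw [← hst'] at ht
      exact hij (hdisjH i j s hs ht)

theorem step2 {x : ℕ → Fn} {l r : ℕ → ℕ} (hB : Blk x l r) (hx : ∀ s, x s ≠ 0) (k : ℕ) :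
    ∃ (y : ℕ → Fn) (l' r' : ℕ → ℕ), Blk y l' r' ∧ (∀ i, l 0 ≤ l' i) ∧
      (∀ i, y i ∈ Submodule.span ℝ (Set.range x)) ∧ (∀ i, nx (y i) = 1) ∧
      ∀ (F : Finset ℕ) (c : ℕ → ℝ), (∀ i ∈ F, |c i| ≤ 1) →
        UB (2 ^ k) (∑ i ∈ F, Finsupp.single (r' i + 1) (c i)) →
        nx (∑ i ∈ F, c i • y (i + 1)) ≤ 2 := by
  by_contra hcon
  have hfail : ∀ (y : ℕ → Fn) (l' r' : ℕ → ℕ), Blk y l' r' → (∀ i, l 0 ≤ l' i) →
      (∀ i, y i ∈ Submodule.span ℝ (Set.range x)) → (∀ i, nx (y i) = 1) →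
      ∃ (F : Finset ℕ) (c : ℕ → ℝ), (∀ i ∈ F, |c i| ≤ 1) ∧
        UB (2 ^ k) (∑ i ∈ F, Finsupp.single (r' i + 1) (c i)) ∧
        2 < nx (∑ i ∈ F, c i • y (i + 1)) := by
    intro y l' r' h1 h2 h3 h4
    by_contra hc
    apply hcon
    refine ⟨y, l', r', h1, h2, h3, h4, fun F c h5 h6 => ?_⟩
    by_contra h7
    exact hc ⟨F, c, h5, h6, lt_of_not_ge h7⟩
  -- normalise
  set x' : ℕ → Fn := fun s => (nx (x s))⁻¹ • x s with hx'
  have hx'B : Blk x' l r := by
    refine ⟨hB.lr, hB.sep, fun s n hn => hB.supp s n ?_⟩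
    exact Finsupp.support_smul hn
  have hx'n : ∀ s, nx (x' s) = 1 := by
    intro s
    have := nx_pos (hx s)
    rw [hx', nx_smul, abs_of_pos (by positivity)]
    exact inv_mul_cancel₀ this.ne'
  obtain ⟨σ, hσ, hstep⟩ := step1 hx'B (fun s => (hx'n s).le)
  set X : ℕ → Fn := fun i => x' (σ i) with hX
  have hXB : Blk X (fun i => l (σ i)) (fun i => r (σ i)) := by
    refine ⟨fun i => hB.lr _, fun i => hB.r_lt_l (hσ (Nat.lt_succ_self i)), fun i n hn => ?_⟩
    exact hx'B.supp (σ i) n hn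
  have hspan : ∀ i, X i ∈ Submodule.span ℝ (Set.range x) := by
    intro i
    exact Submodule.smul_mem _ _ (Submodule.subset_span ⟨σ i, rfl⟩)
  have hlev : ∀ D, ∀ m, ∃ G δ, (∀ s ∈ G, m ≤ s) ∧
      LevBlk X (fun i => r (σ i)) k D G δ := by
    intro D
    induction D with
    | zero =>
      intro m
      refine ⟨{m}, fun _ => 1, fun s hs => by rw [Finset.mem_singleton] at hs; omega, ?_⟩
      refine ⟨Finset.singleton_nonempty m, ?_, ?_, ?_⟩
      · rw [Finset.sum_singleton, one_smul]; exact hx'n _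
      · intro s _; simp
      · rw [Finset.sum_singleton, pow_zero]
        exact ub_single _ (by simp)
    | succ D ih =>
      exact levBlk_step hXB (fun i => hB.l_le_l (Nat.zero_le _)) hspan hfail ih
  obtain ⟨G, δ, -, hG⟩ := hlev (3 * (k + 1) + 4) 0
  have h1 := hstep (k + 1) (by omega) G (fun s => 16 * δ s) (fun s hs => by
      rw [abs_mul, abs_of_pos (by norm_num : (0 : ℝ) < 16)]
      have h2 := hG.small s hs
      have h3 : (1 / 2 : ℝ) ^ (3 * (k + 1) + 4) = (1 / 8) ^ (k + 1) / 16 := by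
        rw [pow_add, pow_mul]; norm_num; ring
      rw [h3] at h2
      linarith) (by
      have h2 := ub_smul 16 hG.ub
      have h3 : (16 : ℝ) • ∑ s ∈ G, (Finsupp.single (r (σ s) + 1) (δ s) : Fn) =
          ∑ s ∈ G, Finsupp.single (r (σ s) + 1) (16 * δ s) := by
        rw [Finset.smul_sum]
        refine Finset.sum_congr rfl fun s _ => ?_
        rw [Finsupp.smul_single, smul_eq_mul]
      rw [h3] at h2
      refine ub_weaken ?_ h2
      rw [abs_of_pos (by norm_num : (0 : ℝ) < 16), bb]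
      calc (16 : ℝ) * (2 ^ k / 2) ^ (3 * (k + 1) + 4)
          ≤ 16 * (2 ^ k) ^ (3 * (k + 1) + 4) := by
            refine mul_le_mul_of_nonneg_left ?_ (by norm_num)
            refine pow_le_pow_left₀ (by positivity) ?_ _
            exact half_le_self (by positivity)
        _ = 2 ^ (4 + k * (3 * (k + 1) + 4)) := by
            rw [← pow_mul, pow_add 2 4 (k * (3 * (k + 1) + 4))]; norm_num
        _ ≤ 2 ^ (12 * (k + 1) ^ 2) := by
            refine pow_le_pow_right₀ (by norm_num) ?_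
            nlinarith)
  have h4 : ∑ s ∈ G, (16 * δ s) • x' (σ (s + 1)) = (16 : ℝ) • ∑ s ∈ G, δ s • X (s + 1) := by
    rw [Finset.smul_sum]
    refine Finset.sum_congr rfl fun s _ => ?_
    exact mul_smul _ _ _
  rw [h4, nx_smul, hG.nrm] at h1
  norm_num at h1

end Pool.Agent.Helper23.AC
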